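import Pool.Agent.MP_2c8680_an.H64.Main

set_option autoImplicit false

namespace Pool.Agent.Results.MP_2c8680_an.HalfTurn

open ComplexConjugate Set Pool.Agent.MP_2c8680_an.H64

/-- the vertex lists of the tiles: start from `Q` and apply half-turns about midpoints of edges -/
inductive Tile (Q : Fin 4 → ℂ) : (Fin 4 → ℂ) → Prop
  | base : Tile Q Q
  | turn (T : Fin 4 → ℂ) (j : Fin 4) : Tile Q T → Tile Q fun k => T j + T (j + 1) - T k

/-- four points, in this cyclic order, are the vertices of a convex quadrilateral -/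
def ConvexQuad (Q : Fin 4 → ℂ) : Prop :=
  ¬ Collinear ℝ (range Q) ∧ (openSegment ℝ (Q 0) (Q 2) ∩ openSegment ℝ (Q 1) (Q 3)).Nonempty

/-- the mirror image of `z` in the line through `X` and `Y` -/
noncomputable def mirror (X Y z : ℂ) : ℂ := EuclideanGeometry.reflection line[ℝ, X, Y] z

/-- `p` lists the successive edge crossings of a trajectory of the tiling billiard -/
def IsTraj (Q : Fin 4 → ℂ) (p : ℕ → ℂ) : Prop :=
  (∀ i, ∃ T, Tile Q T ∧ openSegment ℝ (p i) (p (i + 1)) ⊆ interior (convexHull ℝ (range T))) ∧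
  ∀ i, ∃ T j, Tile Q T ∧ p (i + 1) ∈ openSegment ℝ (T j) (T (j + 1)) ∧ ∃ l : ℝ, 0 < l ∧
    p (i + 2) - p (i + 1) = l • (mirror (T j) (T (j + 1)) (p i) - p (i + 1))

/-- the union of the bounded connected components of the complement -/
def enclosed (γ : Set ℂ) : Set ℂ := {z | z ∉ γ ∧ Bornology.IsBounded (connectedComponentIn γᶜ z)}

lemma mirror_symm (X Y z : ℂ) : mirror X Y z = mirror Y X z := by
  simp only [mirror, Set.pair_comm X Y]

lemma mirror_eq {X Y w : ℂ} (hw : w ∈ openSegment ℝ X Y) (hne : X ≠ Y) (z : ℂ) :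
    (mirror X Y z - w) * conj (Y - X) = -((Y - X) * conj (w - z)) := by
  have he : Y - X ≠ 0 := sub_ne_zero.mpr hne.symm
  obtain ⟨c, rfl⟩ : ∃ c, z = w + c * (Y - X) := ⟨(z - w) / (Y - X), by field_simp; ring⟩
  have hw' : w ∈ line[ℝ, X, Y] := by
    obtain ⟨a, b, -, -, hab, rfl⟩ := hw
    have := AffineMap.lineMap_mem_affineSpan_pair b X Y
    rwa [AffineMap.lineMap_apply_module, show 1 - b = a by linarith] at this
  have h1 : c.re • (Y - X) + w ∈ line[ℝ, X, Y] :=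
    AffineSubspace.vadd_mem_of_mem_direction (Submodule.smul_mem _ _ (by
      rw [direction_affineSpan]
      exact vsub_rev_mem_vectorSpan_pair ℝ X Y)) hw'
  have h2 : (c.im * Complex.I) * (Y - X) ∈ (line[ℝ, X, Y]).directionᗮ := by
    rw [direction_affineSpan, vectorSpan_pair_rev, Submodule.mem_orthogonal_singleton_iff_inner_right]
    simp [Complex.inner]
    ring
  have h3 := EuclideanGeometry.reflection_orthogonal_vadd h1 h2
  have e : w + c * (Y - X) = (c.im * Complex.I) * (Y - X) +ᵥ (c.re • (Y - X) + w) := by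
    rw [vadd_eq_add, Complex.real_smul]
    linear_combination (X - Y) * Complex.re_add_im c
  have h4 : mirror X Y (w + c * (Y - X)) = -((c.im * Complex.I) * (Y - X)) + (c.re • (Y - X) + w) := by
    rw [mirror, e]
    exact h3
  rw [h4]
  have : conj c = c.re - c.im * Complex.I := by
    apply Complex.ext <;> simp
  simp only [sub_add_cancel_left, map_neg, map_mul, this, Complex.real_smul]
  ring

lemma Tile.form {Z : Quad} {T : Fin 4 → ℂ} (h : Tile Z.X T) :
    ∃ s g, ∀ j, T j = Z.pos (vert s g j) := by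
  induction h with
  | base => exact ⟨true, 0, fun j => by simp [Z.pos_vert, sg, Quad.tr]⟩
  | turn T j _ ih =>
    obtain ⟨s, g, h⟩ := ih
    refine ⟨!s, nb s g j, fun k => ?_⟩
    simp only [h, Z.pos_vert]
    cases s <;> fin_cases j <;> simp [sg, Quad.tr, nb, gm, Quad.X] <;> ring

lemma hull_eq (Z : Quad) {T : Fin 4 → ℂ} {s : Bool} {g : ℤ × ℤ}
    (h : ∀ j, T j = Z.pos (vert s g j)) : convexHull ℝ (range T) = Z.Tl s g := by
  let f : ℂ →ᵃ[ℝ] ℂ := ⟨fun z => sg s * z + Z.tr s g, (LinearMap.mulLeft ℝ (sg s)), fun p v => by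
    simp; ring⟩
  have := f.image_convexHull {Z.A, Z.B, Z.C, Z.D}
  refine Eq.trans ?_ this.symm
  congr 1
  have e : T = f ∘ Z.X := funext fun j => (h j).trans (Z.pos_vert s g j)
  rw [e, range_comp]
  congr 1
  ext x
  simp [Quad.X, Fin.exists_fin_succ, eq_comm]

lemma pos_case (Z : Quad) (hc : EuclideanGeometry.Cospherical (range Z.X)) (p : ℕ → ℂ) (n : ℕ)
    (hn : 0 < n) (hper : Function.Periodic p n) (hp : IsTraj Z.X p) (T : Fin 4 → ℂ)
    (hT : Tile Z.X T) :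
    ¬ convexHull ℝ (range T) ⊆ enclosed (⋃ i, segment ℝ (p i) (p (i + 1))) := by
  obtain ⟨o, r, hc⟩ := hc
  obtain ⟨Z, rfl⟩ := exists_cyc Z o r (hc _ ⟨0, rfl⟩) (hc _ ⟨1, rfl⟩) (hc _ ⟨2, rfl⟩)
    (hc _ ⟨3, rfl⟩)
  have hT' : ∀ i, ∃ (b : Bool) (g : ℤ × ℤ),
      openSegment ℝ (p i) (p (i + 1)) ⊆ interior (Z.Tl b g) := by
    intro i
    obtain ⟨T, h1, h2⟩ := hp.1 i
    obtain ⟨s, g, h⟩ := h1.form
    exact ⟨s, g, hull_eq _ h ▸ h2⟩
  choose ts tg hT'' using hT'
  obtain ⟨s, g, h⟩ := hT.form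
  rw [hull_eq _ h]
  refine Z.traj n hn p hper ts tg hT'' (fun i => ?_) s g
  obtain ⟨T, j, h1, h2, l, hl, h3⟩ := hp.2 i
  obtain ⟨s, g, h⟩ := h1.form
  refine ⟨s, g, j, h j ▸ h (j + 1) ▸ h2, l, hl, ?_⟩
  have e : T (j + 1) - T j = sg s * (Z.X (j + 1) - Z.X j) := by
    rw [h, h, Quad.pos_vert, Quad.pos_vert]; ring
  have hne : T j ≠ T (j + 1) := fun h' => by
    rw [h', sub_self] at e
    refine mul_ne_zero ?_ (Z.side_ne j) e.symm
    cases s <;> simp [sg]
  have h4 := mirror_eq h2 hne (p i)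
  rw [e] at h4
  rw [h3, Complex.real_smul]
  cases s <;> simp only [sg, if_true, Bool.false_eq_true, if_false, map_mul, map_neg, map_one]
    at h4
  · linear_combination -(l : ℂ) * h4
  · linear_combination (l : ℂ) * h4

lemma Tile.rev {Q T : Fin 4 → ℂ} (h : Tile Q T) : Tile (fun k => Q (-k)) fun k => T (-k) := by
  induction h with
  | base => exact Tile.base
  | turn T j _ ih =>
    have := Tile.turn _ (-(j + 1)) ih
    simp only [neg_neg, neg_add_rev, add_right_comm (-1) (-j) 1, neg_add_cancel, zero_add,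
      add_comm (T (j + 1)) (T j)] at this
    exact this

lemma range_rev (T : Fin 4 → ℂ) : range (fun k => T (-k)) = range T :=
  neg_surjective.range_comp T

lemma IsTraj.rev {Q : Fin 4 → ℂ} {p : ℕ → ℂ} (h : IsTraj Q p) : IsTraj (fun k => Q (-k)) p := by
  refine ⟨fun i => ?_, fun i => ?_⟩
  · obtain ⟨T, h1, h2⟩ := h.1 i
    exact ⟨_, h1.rev, by rwa [range_rev]⟩
  · obtain ⟨T, j, h1, h2⟩ := h.2 i
    refine ⟨_, -(j + 1), h1.rev, ?_⟩
    have e : -(-(j + 1) + 1) = j := by simp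
    simp only [neg_neg, e]
    rwa [openSegment_symm, mirror_symm]

lemma ConvexQuad.sign {Q : Fin 4 → ℂ} (h : ConvexQuad Q) : ∃ κ : ℝ, κ ≠ 0 ∧ ∀ j, ∃ t : ℝ, 0 < t ∧
    cr (Q (j + 1) - Q j) (Q (j + 2) - Q (j + 1)) = t * κ := by
  obtain ⟨h0, O, ⟨a, c, ha, hc, hac, h1⟩, ⟨b, d, hb, hd, hbd, h2⟩⟩ := h
  obtain ⟨u, hu⟩ : ∃ u, Q 0 = Q 2 + u := ⟨Q 0 - Q 2, by ring⟩
  obtain ⟨v, hv⟩ : ∃ v, Q 1 = Q 3 + v := ⟨Q 1 - Q 3, by ring⟩
  obtain rfl : c = 1 - a := by linarith
  obtain rfl : d = 1 - b := by linarith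
  simp only [Complex.real_smul] at h1 h2
  push_cast at h1 h2
  have e0 : Q 0 = O + ((1 - a : ℝ) : ℂ) * u := by push_cast; linear_combination h1 + (1 - a) * hu
  have e1 : Q 1 = O + ((1 - b : ℝ) : ℂ) * v := by push_cast; linear_combination h2 + (1 - b) * hv
  have e2 : Q 2 = O + ((-a : ℝ) : ℂ) * u := by push_cast; linear_combination h1 - a * hu
  have e3 : Q 3 = O + ((-b : ℝ) : ℂ) * v := by push_cast; linear_combination h2 - b * hv
  refine ⟨cr u v, fun hk => h0 ?_, fun j => ?_⟩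
  · obtain ⟨w, x, y, rfl, rfl⟩ : ∃ (w : ℂ) (x y : ℝ), u = x * w ∧ v = y * w := by
      by_cases hu0 : u = 0
      · exact ⟨v, 0, 1, by simp [hu0], by simp⟩
      · refine ⟨u, 1, (v / u).re, by simp, ?_⟩
        have : (v / u).im = 0 := by
          rw [Complex.div_im, ← sub_div, div_eq_zero_iff]
          left
          simp only [cr] at hk
          linarith
        have h3 : ((v / u).re : ℂ) = v / u := Complex.ext (by simp) (by simp [this])
        rw [h3]
        field_simp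
    refine (collinear_iff_exists_forall_eq_smul_vadd _).mpr ⟨O, w, ?_⟩
    rintro _ ⟨k, rfl⟩
    fin_cases k
    · exact ⟨(1 - a) * x, e0.trans (by simp; ring)⟩
    · exact ⟨(1 - b) * y, e1.trans (by simp; ring)⟩
    · exact ⟨-a * x, e2.trans (by simp; ring)⟩
    · exact ⟨-b * y, e3.trans (by simp; ring)⟩
  · fin_cases j
    · exact ⟨1 - b, hd, by
        change cr (Q 1 - Q 0) (Q 2 - Q 1) = _
        rw [e0, e1, e2]; simp [cr]; ring⟩
    · exact ⟨a, ha, by
        change cr (Q 2 - Q 1) (Q 3 - Q 2) = _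
        rw [e1, e2, e3]; simp [cr]; ring⟩
    · exact ⟨b, hb, by
        change cr (Q 3 - Q 2) (Q 0 - Q 3) = _
        rw [e0, e2, e3]; simp [cr]; ring⟩
    · exact ⟨1 - a, hc, by
        change cr (Q 0 - Q 3) (Q 1 - Q 0) = _
        rw [e0, e1, e3]; simp [cr]; ring⟩

theorem result (Q : Fin 4 → ℂ) (hQ : ConvexQuad Q) (hc : EuclideanGeometry.Cospherical (range Q))
    (p : ℕ → ℂ) (n : ℕ) (hn : 0 < n) (hper : Function.Periodic p n) (hp : IsTraj Q p)
    (T : Fin 4 → ℂ) (hT : Tile Q T) :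
    ¬ convexHull ℝ (range T) ⊆ enclosed (⋃ i, segment ℝ (p i) (p (i + 1))) := by
  obtain ⟨κ, hκ, h⟩ := hQ.sign
  have sw : ∀ z w x : ℂ, cr (z - w) (x - z) = -cr (z - x) (w - z) := fun z w x => by
    simp [cr]; ring
  rcases hκ.lt_or_gt with hκ | hκ
  · have k : ∀ j, 0 < -cr (Q (j + 1) - Q j) (Q (j + 2) - Q (j + 1)) := fun j => by
      obtain ⟨t, ht, e⟩ := h j
      rw [e]
      nlinarith
    let Z : Quad := ⟨Q 0, Q 3, Q 2, Q 1, sw _ _ _ ▸ k 2, sw _ _ _ ▸ k 1, sw _ _ _ ▸ k 0,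
      sw _ _ _ ▸ k 3⟩
    have e : Z.X = fun k => Q (-k) := by
      funext k
      fin_cases k <;> rfl
    rw [← range_rev T]
    exact pos_case Z (by rwa [e, range_rev]) p n hn hper (e ▸ hp.rev) _ (e ▸ hT.rev)
  · have k : ∀ j, 0 < cr (Q (j + 1) - Q j) (Q (j + 2) - Q (j + 1)) := fun j => by
      obtain ⟨t, ht, e⟩ := h j
      rw [e]
      positivity
    let Z : Quad := ⟨Q 0, Q 1, Q 2, Q 3, k 0, k 1, k 2, k 3⟩
    have e : Z.X = Q := by
      funext k
      fin_cases k <;> rfl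
    exact pos_case Z (by rwa [e]) p n hn hper (e ▸ hp) _ (e ▸ hT)

end Pool.Agent.Results.MP_2c8680_an.HalfTurn
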